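import Pool.Agent.Run7.h121.Above

/-!
# The structure of ultrafilters of character `ℵ_(ω+1)` at a strong limit aleph_omega

Let aleph_omega be a strong limit cardinal with `2 ^ ℵ_ω > ℵ_(ω+1)`, and let `U` be a uniform
ultrafilter on a set of size aleph_omega with a base of size at most `ℵ_(ω+1)`.  Then one of the
following holds.

(1) There are a set `J` of size less than aleph_omega, a projection `π` to `J` through which every
function to a set of size less than aleph_omega factors modulo `U`, levels `k j` tending to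
infinity modulo `U`, and a function `p` with `p x < ω_(k (π x))` which is unbounded and complete
over the ultrapower by the image of `U` on `J`.

(2) `U` is decomposable at every `ω_n`, `2 ^ ℵ_ω = ℵ_(ω+2)`, and the pcf generator `A` of
`ℵ_(ω+1)` is infinite, has infinite complement, and, up to finitely many exceptions, contains with
`n` some `m > n` with `ℵ_m ≤ 2 ^ ℵ_n`, and with `n + 1` also `n` if `2 ^ ℵ_n = ℵ_(n+1)`.
-/

open Cardinal Ordinal Set Filter

theorem Pool.Agent.Results.MP_90aa37_lc.Dichotomy.result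
    -- aleph_omega is a strong limit cardinal
    (hSL : ∀ n : ℕ, (2 : Cardinal.{0}) ^ (ℵ_ (n : Ordinal.{0})) < ℵ_ ω)
    -- `2 ^ ℵ_ω > ℵ_(ω+1)`
    (hpow : ℵ_ (ω + 1) < (2 : Cardinal.{0}) ^ (ℵ_ (ω : Ordinal.{0})))
    -- `U` is a uniform ultrafilter on a set of size aleph_omega
    (α : Type) (hα : #α = ℵ_ ω) (U : Ultrafilter α) (hU : ∀ A ∈ U, #A = #α)
    -- `B` is a base of `U` of size at most `ℵ_(ω+1)`
    (B : Set (Set α)) (hB : ∀ b ∈ B, b ∈ U) (hbase : ∀ A ∈ U, ∃ b ∈ B, b ⊆ A)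
    (hBc : #B ≤ ℵ_ (ω + 1)) :
    (∃ (J : Type) (π : α → J) (k : J → ℕ) (p : α → Ordinal.{0}),
      #J < ℵ_ ω ∧
      -- functions to small sets factor through `π`
      (∀ (β : Type) (f : α → β), #β < ℵ_ ω →
        ∃ g : J → β, ∀ᶠ x in (U : Filter α), f x = g (π x)) ∧
      -- the levels tend to infinity
      (∀ m : ℕ, ∀ᶠ x in (U : Filter α), m ≤ k (π x)) ∧
      (∀ x, p x < ω_ ((k (π x) : ℕ) : Ordinal.{0})) ∧
      -- `p` is above every function on `J`
      (∀ f : J → Ordinal.{0}, (∀ j, f j < ω_ ((k j : ℕ) : Ordinal.{0})) →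
        ∀ᶠ x in (U : Filter α), f (π x) ≤ p x) ∧
      -- every function bounded, over `J`, below the level `k` factors through `π`
      ∀ γ : J → Ordinal.{0}, (∀ j, γ j < ω_ ((k j : ℕ) : Ordinal.{0})) →
        ∀ G : α → Ordinal.{0}, (∀ᶠ x in (U : Filter α), G x < γ (π x)) →
          ∃ g : J → Ordinal.{0}, ∀ᶠ x in (U : Filter α), G x = g (π x)) ∨
    ((∀ n : ℕ, ∃ p : α → Ordinal.{0}, (∀ x, p x < ω_ (n : Ordinal.{0})) ∧
        ∀ ξ < ω_ (n : Ordinal.{0}), ∀ᶠ x in (U : Filter α), ξ ≤ p x) ∧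
      (2 : Cardinal.{0}) ^ (ℵ_ (ω : Ordinal.{0})) = ℵ_ (ω + 2) ∧
      ∃ A : Set ℕ, A.Infinite ∧ Aᶜ.Infinite ∧
        (∃ F : (ℵ_ (ω + 1) : Cardinal.{0}).ord.ToType → (n : ℕ) → (ω_ (n : Ordinal.{0})).ToType,
          ∀ f : (n : ℕ) → (ω_ (n : Ordinal.{0})).ToType,
            ∃ i, ∀ᶠ n in atTop, n ∈ A → f n ≤ F i n) ∧
        (∀ F : (ℵ_ (ω + 1) : Cardinal.{0}).ord.ToType → (n : ℕ) → (ω_ (n : Ordinal.{0})).ToType,
          ∃ g : (n : ℕ) → (ω_ (n : Ordinal.{0})).ToType,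
            ∀ i, ∀ᶠ n in atTop, n ∉ A → F i n ≤ g n) ∧
        (∀ᶠ n : ℕ in atTop, n ∈ A → ∃ m ∈ A, n < m ∧
          ℵ_ ((m : ℕ) : Ordinal.{0}) ≤ (2 : Cardinal.{0}) ^ (ℵ_ (n : Ordinal.{0}))) ∧
        ∀ᶠ n : ℕ in atTop, n + 1 ∈ A →
          (2 : Cardinal.{0}) ^ (ℵ_ (n : Ordinal.{0})) = ℵ_ ((n + 1 : ℕ) : Ordinal.{0}) →
            n ∈ A) := by
  rw [hα] at hU
  by_cases hDI : ∀ n, Run7.h121.DI U n
  · right
    obtain ⟨p, r0, hd⟩ := Run7.h121.exists_dat hα.le hU hB hbase hBc hDI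
    obtain ⟨A, hA⟩ := Run7.h121.exists_gen hSL hpow
    refine ⟨hDI, ?_, A, ?_, ?_, ?_, ?_, ?_, hd.pred_closed hA⟩
    · rw [hd.pow_eq hSL hpow hA, succ_aleph]
      congr 1
      rw [add_assoc, one_add_one_eq_two]
    · refine infinite_of_forall_exists_gt fun m => ?_
      obtain ⟨n, hn, hnA⟩ := hA.inf (m + 1)
      exact ⟨n, hnA, hn⟩
    · refine infinite_of_forall_exists_gt fun m => ?_
      obtain ⟨n, hn, hnA⟩ := hA.coinf (m + 1)
      exact ⟨n, hnA, hn⟩
    · obtain ⟨F, hF1, hF2⟩ := hA.cof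
      refine ⟨fun i n => ToType.mk ⟨F i n, hF1 i n⟩, fun f => ?_⟩
      obtain ⟨i, hi⟩ := hF2 (fun n => (ToType.mk.symm (f n)).1) (fun n => (ToType.mk.symm (f n)).2)
      refine ⟨i, ?_⟩
      filter_upwards [hi] with n hn hnA
      rw [← OrderIso.symm_apply_le]
      exact hn hnA
    · intro F
      obtain ⟨g, hg, h⟩ := hA.dir (fun i n => (ToType.mk.symm (F i n)).1)
        (fun i n => (ToType.mk.symm (F i n)).2)
      refine ⟨fun n => ToType.mk ⟨g n, hg n⟩, fun i => ?_⟩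
      filter_upwards [h i] with n hn hnA
      rw [← OrderIso.symm_apply_le]
      exact hn hnA
    · filter_upwards [hd.above_closed hSL hA] with n hn hnA
      obtain ⟨m, h1, h2, h3⟩ := hn hnA
      exact ⟨m, h3, h1, h2⟩
  · left
    push Not at hDI
    obtain ⟨m0, hm0⟩ := hDI
    obtain ⟨J, π, k, p, hF, h1, h2, h3, h4⟩ := Run7.h121.exists_structure hSL hα.le hU hm0
    exact ⟨J, π, k, p, hF.small, hF.fac, h1, h2, h3, h4⟩
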