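import Pool.Agent.Run7.h121.LimG

/-!
# Limits of fewer than aleph_omega non-uniform ultrafilters have maximal character

Let aleph_omega be a strong limit cardinal.  A uniform ultrafilter on a set of size aleph_omega
which lies in the closure, in the space of all ultrafilters, of fewer than aleph_omega non-uniform
ultrafilters has no base of size less than `2 ^ ℵ_ω`.
-/

open Cardinal Ordinal Set Filter

theorem Pool.Agent.Results.MP_90aa37_lc.LimitOfSmall.result
    -- aleph_omega is a strong limit cardinal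
    (hSL : ∀ n : ℕ, (2 : Cardinal.{0}) ^ (ℵ_ (n : Ordinal.{0})) < ℵ_ ω)
    -- `U` is a uniform ultrafilter on a set of size aleph_omega
    (α : Type) (hα : #α = ℵ_ ω) (U : Ultrafilter α) (hU : ∀ A ∈ U, #A = #α)
    -- `S` consists of fewer than aleph_omega non-uniform ultrafilters
    (S : Set (Ultrafilter α)) (hS : #S < ℵ_ ω) (hSn : ∀ V ∈ S, ∃ A ∈ V, #A < #α)
    -- `U` is a limit of members of `S`
    (hcl : U ∈ closure S)
    -- `B` is a base of `U`
    (B : Set (Set α)) (hB : ∀ b ∈ B, b ∈ U) (hbase : ∀ A ∈ U, ∃ b ∈ B, b ⊆ A) :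
    (2 : Cardinal.{0}) ^ (ℵ_ (ω : Ordinal.{0})) ≤ #B := by
  rw [hα] at hU hSn
  exact Run7.h121.lim_characterG hSL U hU S hS hSn hcl B hB hbase
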