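import Pool.Agent.Run7.h121.Level

/-!
# Small characters at a strong limit aleph_omega: a strongly uniform image

Let aleph_omega be a strong limit cardinal with `2 ^ ℵ_ω > ℵ_(ω+1)`.  Every uniform ultrafilter on
a set of size aleph_omega with a base of size at most `ℵ_(ω+1)` has an image on the disjoint union
of the `ω_n` which concentrates on large `n` and dominates every function in the product of the
`ω_n`.
-/

open Cardinal Ordinal Set Filter

theorem Pool.Agent.Results.MP_90aa37_lc.StrongLevel.result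
    -- aleph_omega is a strong limit cardinal
    (hSL : ∀ n : ℕ, (2 : Cardinal.{0}) ^ (ℵ_ (n : Ordinal.{0})) < ℵ_ ω)
    -- `2 ^ ℵ_ω > ℵ_(ω+1)`
    (hpow : ℵ_ (ω + 1) < (2 : Cardinal.{0}) ^ (ℵ_ (ω : Ordinal.{0})))
    -- `U` is a uniform ultrafilter on a set of size aleph_omega
    (α : Type) (hα : #α = ℵ_ ω) (U : Ultrafilter α) (hU : ∀ A ∈ U, #A = #α)
    -- `B` is a base of `U` of size at most `ℵ_(ω+1)`
    (B : Set (Set α)) (hB : ∀ b ∈ B, b ∈ U) (hbase : ∀ A ∈ U, ∃ b ∈ B, b ⊆ A)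
    (hBc : #B ≤ ℵ_ (ω + 1)) :
    ∃ h : α → (n : ℕ) × (ω_ (n : Ordinal.{0})).ToType,
      (∀ m : ℕ, ∀ᶠ x in (U : Filter α), m ≤ (h x).1) ∧
      ∀ f : (n : ℕ) → (ω_ (n : Ordinal.{0})).ToType,
        ∀ᶠ x in (U : Filter α), f (h x).1 ≤ (h x).2 := by
  rw [hα] at hU
  obtain ⟨s, q, hs, hq, hstrong⟩ := Run7.h121.exists_level hSL hpow hα.le hU hB hbase hBc
  refine ⟨fun x => ⟨s x, ToType.mk ⟨q x, hq x⟩⟩, hs, fun f => ?_⟩
  have h1 := hstrong (fun n => (ToType.mk.symm (f n)).1) (fun n => (ToType.mk.symm (f n)).2)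
  filter_upwards [h1] with x hx
  rw [← OrderIso.symm_apply_le]
  exact hx
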