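import Pool.Agent.Run7.h121.Three

/-!
# A small ultrafilter number at aleph_omega forces three levels of small cofinality

Let aleph_omega be a strong limit cardinal with `2 ^ ℵ_ω > ℵ_(ω+1)` and ultrafilter number
`ℵ_(ω+1)`.  Then there are a nonprincipal ultrafilter `D` on the natural numbers and functions `c`
and `m` with `c n < n < m n`, `ℵ_n ≤ 2 ^ ℵ_(c n)` and `ℵ_(m n) ≤ 2 ^ ℵ_n` for `D`-almost all `n`,
such that the ultraproducts modulo `D` of the `ω_(c n)`, of the `ω_n` and of the `ω_(m n)` all have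
cofinal families of size `ℵ_(ω+1)`; so does that of the `ω_(n-1)` if `2 ^ ℵ_(n-1) = ℵ_n` for
`D`-almost all `n`.
-/

open Cardinal Ordinal Set Filter

theorem Pool.Agent.Results.MP_90aa37_lc.ThreeLevels.result
    -- aleph_omega is a strong limit cardinal
    (hSL : ∀ n : ℕ, (2 : Cardinal.{0}) ^ (ℵ_ (n : Ordinal.{0})) < ℵ_ ω)
    -- `2 ^ ℵ_ω > ℵ_(ω+1)`
    (hpow : ℵ_ (ω + 1) < (2 : Cardinal.{0}) ^ (ℵ_ (ω : Ordinal.{0})))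
    -- the ultrafilter number of aleph_omega is `ℵ_(ω+1)`
    (hu : sInf {c : Cardinal.{0} | ∃ (U : Ultrafilter (ω_ (ω : Ordinal.{0})).ToType)
      (B : Set (Set (ω_ (ω : Ordinal.{0})).ToType)), (∀ A ∈ U, #A = ℵ_ ω) ∧ (∀ b ∈ B, b ∈ U) ∧
      (∀ A ∈ U, ∃ b ∈ B, b ⊆ A) ∧ #B = c} = ℵ_ (ω + 1)) :
    ∃ (D : Ultrafilter ℕ) (c m : ℕ → ℕ),
      (∀ i : ℕ, ∀ᶠ n in (D : Filter ℕ), i ≤ n) ∧
      (∀ᶠ n : ℕ in (D : Filter ℕ),
        c n < n ∧ ℵ_ (n : Ordinal.{0}) ≤ (2 : Cardinal.{0}) ^ (ℵ_ ((c n : ℕ) : Ordinal.{0}))) ∧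
      (∀ᶠ n : ℕ in (D : Filter ℕ),
        n < m n ∧ ℵ_ ((m n : ℕ) : Ordinal.{0}) ≤ (2 : Cardinal.{0}) ^ (ℵ_ (n : Ordinal.{0}))) ∧
      ∀ l : ℕ → ℕ,
        (l = c ∨ l = (fun n => n) ∨ l = m ∨
          (l = (fun n => n - 1) ∧ ∀ᶠ n : ℕ in (D : Filter ℕ),
            (2 : Cardinal.{0}) ^ (ℵ_ ((n - 1 : ℕ) : Ordinal.{0})) = ℵ_ (n : Ordinal.{0}))) →
        ∃ F : (ℵ_ (ω + 1) : Cardinal.{0}).ord.ToType →
            (n : ℕ) → (ω_ ((l n : ℕ) : Ordinal.{0})).ToType,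
          ∀ f : (n : ℕ) → (ω_ ((l n : ℕ) : Ordinal.{0})).ToType,
            ∃ i, ∀ᶠ n in (D : Filter ℕ), f n ≤ F i n := by
  have hne : {c : Cardinal.{0} | ∃ (U : Ultrafilter (ω_ (ω : Ordinal.{0})).ToType)
      (B : Set (Set (ω_ (ω : Ordinal.{0})).ToType)), (∀ A ∈ U, #A = ℵ_ ω) ∧ (∀ b ∈ B, b ∈ U) ∧
      (∀ A ∈ U, ∃ b ∈ B, b ⊆ A) ∧ #B = c}.Nonempty := by
    by_contra hcon
    rw [not_nonempty_iff_eq_empty] at hcon
    rw [hcon, Cardinal.sInf_empty] at hu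
    exact (aleph_pos (ω + 1)).ne hu
  obtain ⟨U, B, hU, hB, hbase, hBc⟩ := csInf_mem hne
  rw [hu] at hBc
  have hα : #(ω_ (ω : Ordinal.{0})).ToType = ℵ_ ω := by rw [mk_toType, card_omega]
  obtain ⟨D, c, m, hD, hc, hm, h1, h2, h3, h4⟩ :=
    Run7.h121.three_levels hSL hpow hα.le hU hB hbase hBc.le
  refine ⟨D, c, m, hD, hc, hm, ?_⟩
  rintro l (rfl | rfl | rfl | ⟨rfl, hl⟩)
  · exact h1.toType
  · exact h2.toType
  · exact h3.toType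
  · exact (h4 hl).toType
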